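import Mathlib
import Pool.Agent.H26.BL7

set_option autoImplicit false

namespace Pool.Agent.Results.MP_be51b2_an.Counterexample

open H26 BL0 BL1 BL3 BL7

def IsFBL {B : Type} {F : BL} (δ : B → F) : Prop :=
  (∀ b, ‖δ b‖ = 1) ∧ ∀ (X : BL) (f : B → X), BddAbove (Set.range fun b => ‖f b‖) →
    ∃! T : F →L[ℝ] X, IsHom T ∧ (∀ b, T (δ b) = f b) ∧ ‖T‖ = ⨆ b, ‖f b‖

def Free (P : BL) : Prop :=
  ∃ (B : Type) (F : BL) (δ : B → F) (e : P ≃ₗᵢ[ℝ] F), Nonempty B ∧ IsFBL δ ∧ ∀ x, e |x| = |e x|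

lemma dense_of {B : Type} [Nonempty B] {F : BL} {δ : B → F} (h : IsFBL δ) : DenseRange (ev δ) := by
  obtain ⟨E, ι, γ, h1, h2, h3, h4⟩ := gen_sub δ
  have h5 : ∀ b, ‖γ b‖ = 1 := fun b => by rw [← h2, h3, h.1]
  obtain ⟨T, ⟨t1, t2, t3⟩, -⟩ := h.2 E γ ⟨1, by rintro _ ⟨b, rfl⟩; exact (h5 b).le⟩
  have h6 : ∀ S : F →L[ℝ] F, (∀ b, S (δ b) = δ b) → ‖S‖ ≤ 1 → ‖S‖ = ⨆ b, ‖δ b‖ := fun S s1 s2 => by
    obtain ⟨b⟩ := ‹Nonempty B›
    have := S.le_opNorm (δ b)
    rw [s1, h.1, mul_one] at this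
    simpa [h.1] using s2.antisymm this
  have h7 : ι.comp T = .id ℝ F := (h.2 F δ ⟨1, by rintro _ ⟨b, rfl⟩; exact (h.1 b).le⟩).unique
    ⟨IsHom.comp h1 t1, fun b => by simp [t2, h3], h6 _ (fun b => by simp [t2, h3])
      (ContinuousLinearMap.opNorm_le_bound _ zero_le_one fun x => (h2 _).trans_le
        (T.le_of_opNorm_le (by simp [t3, h5]) x))⟩
    ⟨fun _ => rfl, fun _ => rfl, h6 _ (fun _ => rfl) ContinuousLinearMap.norm_id_le⟩
  rw [← show ι ∘ ev γ = ev δ from funext (ev_hom h1 h3)]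
  exact (Function.Surjective.denseRange fun x => ⟨T x, congrArg (· x) h7⟩).comp h4 ι.continuous

theorem result : ∃ P : BL, Proj P ∧ ¬ HasUnit P ∧ ¬ Free P := by
  classical
  obtain ⟨P, δ, h1, h2, h3⟩ := exists_univ (A := ℝ) (fun _ f => ∀ a, 0 ≤ f a ∧ ‖f a‖ ≤ 1)
    fun _ _ h a => (h a).2
  have d1 : ∀ a, ‖δ a‖ ≤ 1 := fun a => h3 (.var a) 1 zero_le_one fun _ _ h => (h a).2
  have d0 : ∀ a, 0 ≤ δ a := fun a => by
    have := h3 (.lin (-1) (.abs (.var a)) (.var a)) 0 le_rfl fun _ f h => by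
      simp [ev, abs_of_nonneg (h a).1]
    simp only [ev, Rat.cast_neg, Rat.cast_one, neg_smul, one_smul, norm_le_zero_iff,
      add_neg_eq_zero] at this
    exact this ▸ abs_nonneg _
  have h4 : ∀ (Y : BL) (f : ℝ → Y) (r : ℝ), 0 < r → (∀ a, 0 ≤ f a ∧ ‖f a‖ ≤ r) →
      ∃ T : P →L[ℝ] Y, IsHom T ∧ ‖T‖ ≤ r ∧ ∀ a, T (δ a) = f a := fun Y f r hr h => by
    obtain ⟨T, t1, t2, t3⟩ := h2 Y (fun a => r⁻¹ • f a) fun a => ⟨smul_nonneg (inv_pos.2 hr).le (h a).1,
      by rw [norm_smul, norm_inv, Real.norm_of_nonneg hr.le, inv_mul_le_one₀ hr]; exact (h a).2⟩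
    exact ⟨r • T, fun x => by simp [t1 x, abs_smul', abs_of_pos hr],
      ContinuousLinearMap.opNorm_le_bound _ hr.le fun x => by
        rw [ContinuousLinearMap.smul_apply, norm_smul, Real.norm_of_nonneg hr.le]
        exact mul_le_mul_of_nonneg_left (t2 x) hr.le, fun a => by simp [t3, hr.ne']⟩
  choose χ c1 c2 c3 using fun a => h4 real (fun b => if b = a then (1 : ℝ) else 0) 1 one_pos
    fun b => by split_ifs <;> simp
  refine ⟨P, fun X Z Q hQ T hT ε hε => ?_, fun ⟨u, u0, u1⟩ => ?_, fun ⟨B, F, η, e, hB, hF, he⟩ => ?_⟩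
  · rcases (norm_nonneg T).eq_or_lt with h | h
    · exact ⟨0, fun _ => by simp, by rw [norm_eq_zero.1 h.symm]; simp, by simp [← h]⟩
    choose w w0 w1 w2 using fun a => IsQuot.lift_pos hQ (IsHom.nonneg hT (d0 a))
      (r := (1 + ε) * ‖T‖) ((T.le_opNorm_of_le (d1 a)).trans_lt (by nlinarith))
    obtain ⟨S, s1, s2, s3⟩ := h4 X w _ (by positivity) fun a => ⟨w0 a, (w2 a).le⟩
    exact ⟨S, s1, hom_ext (IsHom.comp hQ.1 s1) hT h1 fun a => by simp [s3, w1], s2⟩
  · have h5 : ∀ t : Tm ℝ, {a | χ a (ev δ t) ≠ 0}.Finite := fun t => by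
      induction t with
      | zero => simp [ev]
      | var b =>
        exact (Set.finite_singleton b).subset fun a ha =>
          by_contra fun h => ha ((c3 a b).trans (if_neg (Ne.symm h)))
      | lin q s t hs ht =>
        refine (hs.union ht).subset fun a ha => by_contra fun h => ?_
        simp only [Set.mem_union, Set.mem_setOf_eq, not_or, not_not] at h
        exact ha (by rw [ev, map_add, map_smul, h.1, h.2, smul_zero, add_zero])
      | abs s hs => exact hs.subset fun a ha h => ha (by rw [ev, c1, h, abs_zero])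
    obtain ⟨x, hx, hx'⟩ := mem_closure_iff_seq_limit.1 (h1 u)
    choose t ht using hx
    obtain ⟨a, ha⟩ : ∃ a, a ∉ ⋃ n, {a | χ a (ev δ (t n)) ≠ 0} := by
      by_contra! h
      exact Set.not_countable_univ (Set.eq_univ_of_forall h ▸
        Set.countable_iUnion fun n => (h5 (t n)).countable)
    have h6 : χ a u = 0 := tendsto_nhds_unique (((χ a).continuous.tendsto u).comp hx')
      (tendsto_const_nhds.congr fun n => by
        simpa [ht] using (not_not.1 fun h => ha (Set.mem_iUnion.2 ⟨n, h⟩)).symm)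
    have h7 := u1.induction (P := fun x => χ a x = 0) (fun x ⟨c, hc⟩ => by
      have := IsHom.mono (c1 a) hc
      rwa [c1, map_smul, h6, smul_zero, abs_nonpos_iff] at this)
      (isClosed_eq (χ a).continuous continuous_const) (δ a)
    simp [c3] at h7
  · have hd := dense_of hF
    have hi : IsHom e.symm.toLinearIsometry.toContinuousLinearMap := fun x => e.injective (by simp [he])
    have h5 : ∀ (X : BL) (f : B → X) (r : ℝ), (∀ b, ‖f b‖ ≤ r) → ∃ T : P →L[ℝ] X, IsHom T ∧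
        (∀ b, T (e.symm (η b)) = f b) ∧ ‖T‖ ≤ r := fun X f r h => by
      obtain ⟨T, ⟨t1, t2, t3⟩, -⟩ := hF.2 X f ⟨r, by rintro _ ⟨b, rfl⟩; exact h b⟩
      exact ⟨T.comp e.toLinearIsometry.toContinuousLinearMap, fun x => (congrArg T (he x)).trans (t1 _), fun b => by simp [t2], (T.opNorm_comp_linearIsometryEquiv
        e).trans_le (t3.trans_le (ciSup_le h))⟩
    have h6 : ∀ (X : BL) (T : P →L[ℝ] X) (r : ℝ), IsHom T → (∀ b, ‖T (e.symm (η b))‖ ≤ r) → ‖T‖ ≤ r :=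
      fun X T r hT h => by
        obtain ⟨S, s1, s2, s3⟩ := h5 X _ r h
        rwa [show S = T from ContinuousLinearMap.ext fun x => by
          simpa using congrArg (· (e x)) (hom_ext (IsHom.comp s1 hi) (IsHom.comp hT hi) hd s2)] at s3
    obtain ⟨W, ι, i1, -, i2, -⟩ := exists_renorm (prod real real)
      ((normSeminorm ℝ ℝ).comp (LinearMap.fst ℝ ℝ ℝ) + (normSeminorm ℝ ℝ).comp (LinearMap.snd ℝ ℝ ℝ)) 2
      (fun x => max_le (by change _ ≤ 2 * (‖x.1‖ + ‖x.2‖); linarith [norm_nonneg x.1, norm_nonneg x.2])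
        (by change _ ≤ 2 * (‖x.1‖ + ‖x.2‖); linarith [norm_nonneg x.1, norm_nonneg x.2]))
      (fun x => (add_le_add (norm_fst_le x) (norm_snd_le x)).trans_eq (two_mul _).symm)
      fun x y h => add_le_add h.1 h.2
    have h7 : ∀ φ ψ : P →L[ℝ] real, IsHom φ → IsHom ψ → ‖ψ‖ ≤ 1 →
        (∀ b, ‖φ (e.symm (η b))‖ = ‖ψ (e.symm (η b))‖) → ∀ a, φ (δ a) ≤ ψ (δ a) :=
      fun φ ψ p1 p2 p3 p4 a => by
        have g1 : ∀ φ : P →L[ℝ] real, IsHom φ → IsHom (ι.toContinuousLinearMap.comp (φ.prod (χ a))) :=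
          fun φ h => IsHom.comp i2 fun x => Prod.ext (h x) (c1 a x)
        have g2 : ∀ (φ : P →L[ℝ] real) x, ‖ι.toContinuousLinearMap.comp (φ.prod (χ a)) x‖ =
            ‖φ x‖ + ‖χ a x‖ := fun φ x => i1 _
        have g3 : (0 : ℝ) ≤ ψ (δ a) := IsHom.nonneg p2 (d0 a)
        obtain ⟨S, s1, s2, s3⟩ := h4 W _ (ψ (δ a) + 1) (by positivity) fun b =>
          ⟨IsHom.nonneg (g1 ψ p2) (d0 b), by
            rw [g2, c3]
            split_ifs with h
            · rw [h, Real.norm_of_nonneg g3, norm_one]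
            · linarith [ψ.le_of_opNorm_le p3 (δ b), d1 b, norm_zero (E := ℝ)]⟩
        rw [hom_ext s1 (g1 ψ p2) h1 s3] at s2
        have g4 := (ContinuousLinearMap.le_of_opNorm_le _ (h6 W _ (ψ (δ a) + 1) (g1 φ p1) fun b => by
          rw [g2, p4, ← g2]
          simpa [hF.1] using ContinuousLinearMap.le_of_opNorm_le _ s2 (e.symm (η b))) (δ a)).trans
          (mul_le_of_le_one_right (by positivity) (d1 a))
        rw [g2, c3, if_pos rfl, norm_one] at g4
        exact (le_abs_self _).trans (le_of_add_le_add_right g4)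
    obtain ⟨φ, p1, p2, p3⟩ := h5 real (fun _ => (1 : ℝ)) 1 fun _ => norm_one.le
    obtain ⟨ψ, q1, q2, q3⟩ := h5 real (fun _ => (-1 : ℝ)) 1 fun _ => by simp
    have h8 := hom_ext p1 q1 h1 fun a => (h7 φ ψ p1 q1 q3 (fun b => by simp [p2, q2]) a).antisymm
      (h7 ψ φ q1 p1 p3 (fun b => by simp [p2, q2]) a)
    obtain ⟨b⟩ := hB
    have := p2 b
    rw [h8, q2] at this
    norm_num at this

end Pool.Agent.Results.MP_be51b2_an.Counterexample
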